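import Pool.Agent.P.MP_b2082d_co.Gap.Top

namespace Pool.Agent.Results.MP_b2082d_co.Extremal

open Pool.Agent.P.MP_b2082d_co

/-- A 4-uniform hypergraph of maximum degree at most 4 either contains the complement of the Fano
plane and has fractional disjoint transversal number 7/3, or it does not and the number is at
least 7/3 + 1/10000. -/
theorem result {V ι : Type} [Fintype V] [DecidableEq V] [Fintype ι] [Nonempty ι]
    (E : ι → Finset V)
    (uniform : ∀ i, (E i).card = 4)
    (degree : ∀ v, (Finset.univ.filter fun i => v ∈ E i).card ≤ 4) :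
    (HasFanoComplement E ∧ FDT E = 7 / 3) ∨
      (¬ HasFanoComplement E ∧ 7 / 3 + 1 / 10000 ≤ FDT E) :=
  Gen.Gap.dichotomy E uniform degree

end Pool.Agent.Results.MP_b2082d_co.Extremal
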